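import Pool.Agent.H94.AO.QStmts
import Pool.Agent.H83.AO.ALF

/-!
Module LRG of project AO: regular cardinals exist above every ordinal.
-/

set_option linter.unusedVariables false
set_option linter.unusedSectionVars false
set_option synthInstance.maxSize 100000

namespace AO

open SW

namespace L20

open L83

section
variable {M : Type} [SetStr M] [ZFC M]

/-- there is an ordinal which is not covered by a given set -/
theorem hart_any (hC : CC.CHSStmt) (U : M) : ∃ a, Ord a ∧ ¬ Img U a := by
  obtain ⟨a, ha, hno⟩ := hartF (M := M) U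
  refine ⟨a, ha, ?_⟩
  rintro ⟨f, h1⟩
  apply hno
  obtain ⟨g, hg⟩ := hC M a (fun b x => E x U ∧ b = app f x) inferInstance h1
  refine ⟨gr a (fun b => app g b), ?_, ?_, ?_⟩
  · intro b hb
    exact ⟨app g b, (hg b hb).1, (opair_mem_gr inferInstance).2 ⟨hb, rfl⟩⟩
  · intro b y y' hb hy hy'
    rw [opair_mem_gr inferInstance] at hy hy'
    rw [hy.2, hy'.2]
  · intro b b' y hb hb' hy hy'
    rw [opair_mem_gr inferInstance] at hy hy'
    rw [(hg b hb).2, (hg b' hb').2, ← hy.2, ← hy'.2]

/-- the power set of a transitive set which is closed under pairs covers its square -/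
theorem img_sq {H : M} (he : E emp H) (h1 : E (sing emp) H)
    (hp : ∀ x y, E x H → E y H → E (opair x y) H) :
    Img (pow H) (prod (pow H) (pow H)) := by
  refine img_rel (R := fun y x => y = opair (sep H (fun a => E (opair emp a) x))
    (sep H (fun a => E (opair (sing emp) a) x))) inferInstance ?_ ?_
  · intro y hy
    obtain ⟨A, B, hA, hB, rfl⟩ := mem_prod'.1 hy
    rw [mem_pow] at hA hB
    refine ⟨bun (img A (fun a => opair emp a)) (img B (fun a => opair (sing emp) a)), ?_, ?_⟩
    · rw [mem_pow]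
      intro t ht
      rw [mem_bun, mem_img' inferInstance, mem_img' inferInstance] at ht
      rcases ht with ⟨a, ha, rfl⟩ | ⟨a, ha, rfl⟩
      · exact hp _ _ he (hA a ha)
      · exact hp _ _ h1 (hB a ha)
    · have hne : (emp : M) ≠ sing emp := fun h => by
        have : E (emp : M) emp := by
          rw [h]
          exact mem_sing.2 h.symm
        exact not_mem_emp _ this
      rw [opair_inj]
      constructor
      · refine ext fun t => ?_
        rw [mem_sep' inferInstance, mem_bun, mem_img' inferInstance, mem_img' inferInstance]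
        constructor
        · intro ht
          exact ⟨hA t ht, Or.inl ⟨t, ht, rfl⟩⟩
        · rintro ⟨-, ⟨a, ha, h⟩ | ⟨a, ha, h⟩⟩
          · rw [(opair_inj.1 h).2]
            exact ha
          · exact absurd (opair_inj.1 h).1 hne
      · refine ext fun t => ?_
        rw [mem_sep' inferInstance, mem_bun, mem_img' inferInstance, mem_img' inferInstance]
        constructor
        · intro ht
          exact ⟨hB t ht, Or.inr ⟨t, ht, rfl⟩⟩
        · rintro ⟨-, ⟨a, ha, h⟩ | ⟨a, ha, h⟩⟩
          · exact absurd (opair_inj.1 h).1.symm hne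
          · rw [(opair_inj.1 h).2]
            exact ha
  · intro y y' x _ _ _ h h'
    rw [h, h']

/-- unions of covered families -/
theorem img_union (hC : CC.CHSStmt) {U b : M} {S : M → M} (hS : Fn1 S)
    (hU : Img U (prod U U)) (hb : Img U b) (h : ∀ x, E x b → Img U (S x)) :
    Img U (sUn (img b S)) := by
  obtain ⟨h', hh⟩ := hC M b (fun x f => ∀ y, E y (S x) → ∃ t, E t U ∧ y = app f t)
    inferInstance h
  obtain ⟨e, he⟩ := hb
  refine img_trans hU ?_
  refine img_rel (R := fun y p => ∃ s t, p = opair s t ∧ y = app (app h' (app e s)) t)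
    inferInstance ?_ ?_
  · intro y hy
    rw [mem_sUn] at hy
    obtain ⟨z, hz, hy⟩ := hy
    obtain ⟨x, hx, rfl⟩ := (mem_img' hS).1 hz
    obtain ⟨s, hs, hxs⟩ := he x hx
    obtain ⟨t, ht, hyt⟩ := hh x hx y hy
    exact ⟨opair s t, mem_prod.2 ⟨hs, ht⟩, s, t, rfl, by rw [← hxs]; exact hyt⟩
  · rintro y y' p _ _ _ ⟨s, t, rfl, h1⟩ ⟨s', t', h2, h3⟩
    obtain ⟨rfl, rfl⟩ := opair_inj.1 h2
    rw [h1, h3]

end

end L20

open L20 L83

/-- LRG -/
theorem lrg (hB : BITStmt) (hA : ACFStmt) (hC : CC.CHSStmt) : LRGStmt := by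
  intro M _ _ z hz hom
  obtain ⟨H, hT, hH⟩ := hB M z ⟨om, hom⟩
  -- ordinals up to `z` are in `H`
  have hzH : ∀ a, E a z → E a H := by
    intro a
    refine mem_induction (C := fun a => E a z → E a H) inferInstance (fun x ih hx => ?_) a
    refine hH x (fun y hy => ih y hy (hz.trans hx hy)) ?_
    exact img_sub (img_refl z) (hz.sub_of_mem hx)
  have hzm : E z H := hH z hzH (img_refl z)
  have hez : E (emp : M) z := hz.trans hom emp_mem_om
  have heo : (emp : M) ≠ om := fun h => not_mem_self (om : M) (by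
    have h0 : E (emp : M) om := emp_mem_om
    rw [h] at h0
    exact h0)
  have hup : ∀ x y, E x H → E y H → E (upair x y) H := by
    intro x y hx hy
    refine hH _ (fun t ht => ?_) ?_
    · rw [mem_upair] at ht
      rcases ht with rfl | rfl
      · exact hx
      · exact hy
    · refine img_rel (R := fun w t => (t = emp ∧ w = x) ∨ (t = om ∧ w = y)) inferInstance ?_ ?_
      · intro w hw
        rw [mem_upair] at hw
        rcases hw with rfl | rfl
        · exact ⟨emp, hez, Or.inl ⟨rfl, rfl⟩⟩
        · exact ⟨om, hom, Or.inr ⟨rfl, rfl⟩⟩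
      · rintro w w' t - - - (⟨h1, h2⟩ | ⟨h1, h2⟩) (⟨h3, h4⟩ | ⟨h3, h4⟩)
        · rw [h2, h4]
        · exact absurd (h1.symm.trans h3) heo
        · exact absurd (h3.symm.trans h1) heo
        · rw [h2, h4]
  have heH : E (emp : M) H := hzH _ hez
  have hsH : ∀ x, E x H → E (sing x) H := fun x hx => hup x x hx hx
  have hop : ∀ x y, E x H → E y H → E (opair x y) H := fun x y hx hy =>
    hup _ _ (hsH x hx) (hup x y hx hy)
  have hsq : Img (pow H) (prod (pow H) (pow H)) := img_sq heH (hsH _ heH) hop
  have hzU : Sub z (pow H) := fun a ha => mem_pow.2 (hT a (hzH a ha))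
  have homU : Sub (om : M) (pow H) := (hz.sub_of_mem hom).trans hzU
  obtain ⟨a, ha, hna⟩ := hart_any hC (pow H)
  obtain ⟨l, hl, hl1, hl2, -⟩ := ord_min (C := fun x : M => ¬ Img (pow H) x) inferInstance ha hna
  have hl3 : ∀ c : M, E c l → Img (pow H) c := fun c hc => not_not.1 (hl2 c hc)
  have hlow : ∀ c : M, Ord c → Img (pow H) c → E c l := by
    intro c hc hi
    rcases hc.tri hl with h | h | h
    · exact h
    · exact absurd (h ▸ hi) hl1
    · exact absurd (img_sub hi (hc.sub_of_mem h)) hl1
  have hsuc : ∀ c : M, E c l → E (suc c) l := fun c hc =>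
    hlow _ (Ord_suc (hl.mem hc)) (img_suc homU (hl3 c hc))
  refine ⟨l, hl, hlow z hz (img_sub (img_refl _) hzU), hsuc, fun b f hb hf => ?_⟩
  have hS : Fn1 (fun x : M => suc (app f x)) := inferInstance
  refine ⟨sUn (img b (fun x => suc (app f x))), hlow _ ?_ ?_, ?_⟩
  · refine Ord_sUn fun y hy => ?_
    obtain ⟨x, hx, rfl⟩ := (mem_img' hS).1 hy
    exact Ord_suc (hl.mem (hf x hx))
  · exact img_union hC hS hsq (hl3 b hb) fun x hx => hl3 _ (hsuc _ (hf x hx))
  · intro x hx
    rw [mem_sUn]
    exact ⟨_, (mem_img' hS).2 ⟨x, hx, rfl⟩, mem_suc.2 (Or.inr rfl)⟩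

end AO
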